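import Pool.Agent.H39.OD.Targets

/-!
# Trigonometry (row TRG of odp_modules)
-/

set_option autoImplicit false

namespace Pool.Agent.H67.OD

open Pool.Agent.H57.CP Pool.Agent.H39.TO Pool.Agent.H39.OD

theorem cos_sq_dvd (p : ℕ) (hp : 0 < p) (j k : ℤ)
    (h : Real.cos (j * Real.pi / p) ^ 2 = Real.cos (k * Real.pi / p) ^ 2) :
    (p : ℤ) ∣ k - j ∨ (p : ℤ) ∣ k + j := by
  have h1 : Real.cos (2 * (j * Real.pi / p)) = Real.cos (2 * (k * Real.pi / p)) := by
    rw [Real.cos_two_mul, Real.cos_two_mul, h]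
  have hp0 : (p : ℝ) ≠ 0 := by exact_mod_cast hp.ne'
  have hpi := Real.pi_ne_zero
  obtain ⟨m, hm | hm⟩ := Real.cos_eq_cos_iff.1 h1
  · left
    refine ⟨m, ?_⟩
    have h2 : (k : ℝ) = m * p + j := by
      field_simp at hm
      linarith
    have h3 : (k : ℤ) = m * p + j := by exact_mod_cast h2
    rw [h3]; ring
  · right
    refine ⟨m, ?_⟩
    have h2 : (k : ℝ) = m * p - j := by
      field_simp at hm
      linarith
    have h3 : (k : ℤ) = m * p - j := by exact_mod_cast h2
    rw [h3]; ring

theorem small_dvd (p : ℕ) (n : ℕ) (hn : 0 < n) (hnp : n < p) : ¬ (p : ℤ) ∣ (n : ℤ) := by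
  intro h
  have h1 : p ∣ n := by exact_mod_cast h
  exact absurd (Nat.le_of_dvd hn h1) (by omega)

theorem pf_TRG : T_TRG := by
  intro p i hodd hV
  have hp5 := hV.p5
  have hp0 : 0 < p := by omega
  have hA : cA p = Real.cos (((1 : ℤ) : ℝ) * Real.pi / p) := by
    unfold cA; push_cast; rw [one_mul]
  have hsin : 0 < Real.sin (Real.pi / p) := by
    apply Real.sin_pos_of_pos_of_lt_pi
    · have := Real.pi_pos
      positivity
    · have h1 : (1 : ℝ) < p := by exact_mod_cast (by omega : 1 < p)
      exact div_lt_self Real.pi_pos h1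
  have hcA : (cA p) ^ 2 < 1 := by
    unfold cA
    have := Real.sin_sq_add_cos_sq (Real.pi / p)
    nlinarith
  have hB : ∀ i : Fin 5, cB p i = Real.cos (((![2, 2, 3, 4, 2] i : ℤ) : ℝ) * Real.pi / p) := by
    intro i
    unfold cB
    fin_cases i <;> simp
  refine ⟨?_, ?_, ?_⟩
  · intro h
    rw [hA, hB] at h
    have h1 := cos_sq_dvd p hp0 _ _ h
    fin_cases i
    · simp only [Fin.zero_eta, Matrix.cons_val_zero] at h1
      rcases h1 with h1 | h1
      · exact small_dvd p 1 (by norm_num) (by omega) (by simpa using h1)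
      · exact small_dvd p 3 (by norm_num) (by omega) (by simpa using h1)
    · simp only [Fin.mk_one, Matrix.cons_val_one] at h1
      rcases h1 with h1 | h1
      · exact small_dvd p 1 (by norm_num) (by omega) (by simpa using h1)
      · exact small_dvd p 3 (by norm_num) (by omega) (by simpa using h1)
    · have h1' : (p : ℤ) ∣ 3 - 1 ∨ (p : ℤ) ∣ 3 + 1 := h1
      rcases h1' with h1 | h1
      · exact small_dvd p 2 (by norm_num) (by omega) (by simpa using h1)
      · exact small_dvd p 4 (by norm_num) (by omega) (by simpa using h1)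
    · have hp7 := hV.i3 rfl
      have h1' : (p : ℤ) ∣ 4 - 1 ∨ (p : ℤ) ∣ 4 + 1 := h1
      rcases h1' with h1 | h1
      · exact small_dvd p 3 (by norm_num) (by omega) (by simpa using h1)
      · exact small_dvd p 5 (by norm_num) (by omega) (by simpa using h1)
    · have h1' : (p : ℤ) ∣ 2 - 1 ∨ (p : ℤ) ∣ 2 + 1 := h1
      rcases h1' with h1 | h1
      · exact small_dvd p 1 (by norm_num) (by omega) (by simpa using h1)
      · exact small_dvd p 3 (by norm_num) (by omega) (by simpa using h1)
  · unfold cD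
    fin_cases i
    · norm_num
    · exact hcA
    · norm_num
    · exact hcA
    · norm_num
  · intro i' hV' hBB hd
    rw [hB, hB] at hBB
    have h1 := cos_sq_dvd p hp0 _ _ hBB
    have d0 : dg p 0 = 2 := rfl
    have d1 : dg p 1 = p := rfl
    have d2 : dg p 2 = 3 := rfl
    have d3 : dg p 3 = p := rfl
    have d4 : dg p 4 = 3 := rfl
    have n2 : ¬ (p : ℤ) ∣ 2 := by
      have := small_dvd p 2 (by norm_num) (by omega)
      exact_mod_cast this
    have n1 : ¬ (p : ℤ) ∣ 1 := by
      have := small_dvd p 1 (by norm_num) (by omega)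
      exact_mod_cast this
    have n6 : 7 ≤ p → ¬ (p : ℤ) ∣ 6 := fun h => by
      have := small_dvd p 6 (by norm_num) (by omega)
      exact_mod_cast this
    have n5 : 7 ≤ p → ¬ (p : ℤ) ∣ 5 := fun h => by
      have := small_dvd p 5 (by norm_num) (by omega)
      exact_mod_cast this
    have i3 := hV.i3
    have i3' := hV'.i3
    have i4 := hV.i4
    have i4' := hV'.i4
    have x13 : ((p : ℤ) ∣ 4 - 2 ∨ (p : ℤ) ∣ 4 + 2) → 7 ≤ p → False := by
      rintro (h | h) hp
      · exact n2 (by simpa using h)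
      · exact n6 hp (by simpa using h)
    have x31 : ((p : ℤ) ∣ 2 - 4 ∨ (p : ℤ) ∣ 2 + 4) → 7 ≤ p → False := by
      rintro (h | h) hp
      · exact n2 (by simpa using (dvd_neg.2 h))
      · exact n6 hp (by simpa using h)
    have x24 : ((p : ℤ) ∣ 2 - 3 ∨ (p : ℤ) ∣ 2 + 3) → 7 ≤ p → False := by
      rintro (h | h) hp
      · exact n1 (by simpa using (dvd_neg.2 h))
      · exact n5 hp (by simpa using h)
    have x42 : ((p : ℤ) ∣ 3 - 2 ∨ (p : ℤ) ∣ 3 + 2) → 7 ≤ p → False := by
      rintro (h | h) hp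
      · exact n1 (by simpa using h)
      · exact n5 hp (by simpa using h)
    fin_cases i <;> fin_cases i' <;> first
      | rfl
      | (exfalso
         have hd' := hd
         simp only [Fin.zero_eta, Fin.mk_one, Fin.reduceFinMk, d0, d1, d2, d3, d4] at hd'
         omega)
      | (exact (x13 h1 (i3' rfl)).elim)
      | (exact (x31 h1 (i3 rfl)).elim)
      | (exact (x24 h1 (by rw [i4' rfl])).elim)
      | (exact (x42 h1 (by rw [i4 rfl])).elim)

end Pool.Agent.H67.OD
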